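import Mathlib
import Pool.Agent.Helper36.Sq.Goals

/-!
# Project SQ, packet LIM: the limit of a path
-/

set_option autoImplicit false

open Filter Topology Finset

namespace Pool.Agent.Helper96.Sq

open Pool.Agent.Helper36.Sq

universe u v

theorem gLim : GLim.{u} := by
  intro X _ _ _ st w H Λ hP
  have H0 := hP.H0
  have L0 := hP.L0
  have hpos : ∀ k : ℕ, 0 < H / 2 ^ k := fun k => by positivity
  have hhalf : ∀ k : ℕ, H / 2 ^ (k + 1) = H / 2 ^ k / 2 := fun k => by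
    rw [pow_succ]; field_simp
  -- the centres
  have hm1 : ∀ k, dist (st k).m (st (k + 1)).m ≤ H / 2 / 2 ^ k := by
    intro k
    rw [Real.dist_eq, hP.hm k]
    have h1 : |(((w k : ℕ) : ℝ) - 1)| ≤ 1 := by
      have : (w k : ℕ) ≤ 2 := by have := (w k).isLt; omega
      have h2 : ((w k : ℕ) : ℝ) ≤ 2 := by exact_mod_cast this
      have h3 : (0 : ℝ) ≤ ((w k : ℕ) : ℝ) := by positivity
      rw [abs_le]; constructor <;> linarith
    have h4 : (st k).m - ((st k).m + (((w k : ℕ) : ℝ) - 1) * (H / 2 ^ k / 2)) =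
        -((((w k : ℕ) : ℝ) - 1) * (H / 2 ^ k / 2)) := by ring
    rw [h4, abs_neg, abs_mul, abs_of_pos (half_pos (hpos k))]
    have h5 : H / 2 / 2 ^ k = H / 2 ^ k / 2 := by ring
    rw [h5]
    nlinarith [half_pos (hpos k)]
  obtain ⟨σ, hσ⟩ := cauchySeq_tendsto_of_complete (cauchySeq_of_le_geometric_two hm1)
  have hσ1 : ∀ k, |σ - (st k).m| ≤ H / 2 ^ k := by
    intro k
    have := dist_le_of_le_geometric_two_of_tendsto hm1 hσ k
    rwa [dist_comm, Real.dist_eq] at this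
  -- the slopes
  have hg1 : ∀ k, dist (st k).g (st (k + 1)).g ≤ 2 * H / 2 / 2 ^ k := by
    intro k
    rw [dist_comm, dist_eq_norm]
    have h5 : 2 * H / 2 / 2 ^ k = H / 2 ^ k := by ring
    rw [h5]; exact hP.hg k
  obtain ⟨G, hG⟩ := cauchySeq_tendsto_of_complete (cauchySeq_of_le_geometric_two hg1)
  have hG1 : ∀ k, ‖G - (st k).g‖ ≤ 2 * (H / 2 ^ k) := by
    intro k
    have := dist_le_of_le_geometric_two_of_tendsto hg1 hG k
    rw [dist_comm, dist_eq_norm] at this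
    calc _ ≤ _ := this
      _ = _ := by ring
  -- the functionals
  have hf1 : ∀ k, dist ((st k).f + σ • (st k).g) ((st (k + 1)).f + σ • (st (k + 1)).g) ≤
      H ^ 2 * (1 / 4) ^ k := by
    intro k
    rw [dist_comm, dist_eq_norm]
    have e1 : ((st (k + 1)).f + σ • (st (k + 1)).g) - ((st k).f + σ • (st k).g) =
        (((st (k + 1)).f + (st (k + 1)).m • (st (k + 1)).g) -
          ((st k).f + (st (k + 1)).m • (st k).g)) +
        (σ - (st (k + 1)).m) • ((st (k + 1)).g - (st k).g) := by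
      module
    rw [e1]
    have e2 : H ^ 2 * (1 / 4) ^ k = (H / 2 ^ k) ^ 2 := by
      have e0 : (4 : ℝ) ^ k = (2 ^ k) ^ 2 := by
        rw [← pow_mul, mul_comm, pow_mul]; norm_num
      rw [one_div, inv_pow, e0, div_pow, div_eq_mul_inv]
    rw [e2]
    have e3 : ‖(σ - (st (k + 1)).m) • ((st (k + 1)).g - (st k).g)‖ ≤
        (H / 2 ^ k / 2) * (H / 2 ^ k) := by
      rw [norm_smul, Real.norm_eq_abs]
      have := hσ1 (k + 1)
      rw [hhalf] at this
      exact mul_le_mul this (hP.hg k) (norm_nonneg _) (half_pos (hpos k)).le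
    calc _ ≤ _ := norm_add_le _ _
      _ ≤ (H / 2 ^ k) ^ 2 / 2 + (H / 2 ^ k / 2) * (H / 2 ^ k) := add_le_add (hP.hf k) e3
      _ = _ := by ring
  obtain ⟨F, hF⟩ := cauchySeq_tendsto_of_complete
    (cauchySeq_of_le_geometric (1 / 4) (H ^ 2) (by norm_num) hf1)
  have hF1 : ∀ k, ‖F - ((st k).f + σ • (st k).g)‖ ≤ 2 * (H / 2 ^ k) ^ 2 := by
    intro k
    have := dist_le_of_le_geometric_of_tendsto (1 / 4) (H ^ 2) (by norm_num) hf1 hF k
    rw [dist_comm, dist_eq_norm] at this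
    have e2 : H ^ 2 * (1 / 4) ^ k = (H / 2 ^ k) ^ 2 := by
      have e0 : (4 : ℝ) ^ k = (2 ^ k) ^ 2 := by
        rw [← pow_mul, mul_comm, pow_mul]; norm_num
      rw [one_div, inv_pow, e0, div_pow, div_eq_mul_inv]
    rw [e2] at this
    have h3 : 0 ≤ (H / 2 ^ k) ^ 2 := by positivity
    calc _ ≤ _ := this
      _ ≤ _ := by
        rw [div_le_iff₀ (by norm_num)]; nlinarith
  -- the points
  obtain ⟨z, hz⟩ := cauchySeq_tendsto_of_complete (cauchySeq_of_summable_dist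
    (f := fun k => (st k).x) (summable_of_sum_range_le (c := Λ) (fun _ => dist_nonneg)
      (fun n => by
        refine le_trans (le_of_eq ?_) (hP.hd n)
        refine Finset.sum_congr rfl fun i _ => ?_
        rw [dist_comm, dist_eq_norm])))
  have hz1 : ‖z‖ ≤ 1 := le_of_tendsto hz.norm (Eventually.of_forall hP.hx)
  -- pointwise facts
  have key : ∀ (L : X →L[ℝ] ℝ) (y : X), ‖y‖ ≤ 1 → |L y| ≤ ‖L‖ := by
    intro L y hy
    have := L.le_opNorm y
    rw [Real.norm_eq_abs] at this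
    nlinarith [norm_nonneg L]
  have step : ∀ k, ∀ a b : ℝ, a = σ - ((st k).m - H / 2 ^ k) → b = (st k).m + H / 2 ^ k - σ →
      0 ≤ a ∧ 0 ≤ b ∧ a + b = 2 * (H / 2 ^ k) ∧
      ‖(F + b • G) - ((st k).f + ((st k).m + H / 2 ^ k) • (st k).g)‖ ≤ 6 * (H / 2 ^ k) ^ 2 ∧
      ‖(F - a • G) - ((st k).f + ((st k).m - H / 2 ^ k) • (st k).g)‖ ≤ 6 * (H / 2 ^ k) ^ 2 := by
    intro k a b ha hb
    have h1 := abs_le.1 (hσ1 k)
    have h2 := hpos k
    have ha0 : 0 ≤ a := by rw [ha]; linarith [h1.1]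
    have hb0 : 0 ≤ b := by rw [hb]; linarith [h1.2]
    have hab : a + b = 2 * (H / 2 ^ k) := by rw [ha, hb]; ring
    refine ⟨ha0, hb0, hab, ?_, ?_⟩
    · have e1 : (F + b • G) - ((st k).f + ((st k).m + H / 2 ^ k) • (st k).g) =
          (F - ((st k).f + σ • (st k).g)) + b • (G - (st k).g) := by
        rw [hb]; module
      rw [e1]
      have e2 : ‖b • (G - (st k).g)‖ ≤ (2 * (H / 2 ^ k)) * (2 * (H / 2 ^ k)) := by
        rw [norm_smul, Real.norm_eq_abs, abs_of_nonneg hb0]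
        exact mul_le_mul (by linarith) (hG1 k) (norm_nonneg _) (by positivity)
      calc _ ≤ _ := norm_add_le _ _
        _ ≤ 2 * (H / 2 ^ k) ^ 2 + (2 * (H / 2 ^ k)) * (2 * (H / 2 ^ k)) := add_le_add (hF1 k) e2
        _ = _ := by ring
    · have e1 : (F - a • G) - ((st k).f + ((st k).m - H / 2 ^ k) • (st k).g) =
          (F - ((st k).f + σ • (st k).g)) + (-a) • (G - (st k).g) := by
        rw [ha]; module
      rw [e1]
      have e2 : ‖(-a) • (G - (st k).g)‖ ≤ (2 * (H / 2 ^ k)) * (2 * (H / 2 ^ k)) := by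
        rw [norm_smul, Real.norm_eq_abs, abs_neg, abs_of_nonneg ha0]
        exact mul_le_mul (by linarith) (hG1 k) (norm_nonneg _) (by positivity)
      calc _ ≤ _ := norm_add_le _ _
        _ ≤ 2 * (H / 2 ^ k) ^ 2 + (2 * (H / 2 ^ k)) * (2 * (H / 2 ^ k)) := add_le_add (hF1 k) e2
        _ = _ := by ring
  -- the energy
  have energy : ∀ k,
      (‖(st k).f + ((st k).m + H / 2 ^ k) • (st k).g‖ -
        ((st k).f + ((st k).m + H / 2 ^ k) • (st k).g) (st k).x) +
      (‖(st k).f + ((st k).m - H / 2 ^ k) • (st k).g‖ -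
        ((st k).f + ((st k).m - H / 2 ^ k) • (st k).g) (st k).x) ≤ Λ * (H / 2 ^ k) ^ 2 := by
    intro k
    have h1 := hP.he k
    rw [div_le_iff₀ (by have := hpos k; positivity)] at h1
    refine le_trans (le_of_eq ?_) h1
    unfold en
    simp only [add_apply, smul_apply, smul_eq_mul]
    ring
  have nonneg : ∀ k (s : ℝ), 0 ≤ ‖(st k).f + s • (st k).g‖ -
      ((st k).f + s • (st k).g) (st k).x := fun k s => by
    have := (abs_le.1 (key ((st k).f + s • (st k).g) (st k).x (hP.hx k))).2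
    linarith
  -- F attains its norm at z
  have hFz : ‖F‖ ≤ F z := by
    have h1 : ∀ k, ‖F‖ ≤ F (st k).x + (Λ * (H / 2 ^ k) ^ 2 +
        2 * (6 * (H / 2 ^ k) ^ 2 + 2 * (H / 2 ^ k) * ‖G‖)) := by
      intro k
      obtain ⟨ha0, hb0, hab, hp, hq⟩ := step k _ _ rfl rfl
      set a := σ - ((st k).m - H / 2 ^ k) with ha
      set b := (st k).m + H / 2 ^ k - σ with hb
      set P := (st k).f + ((st k).m + H / 2 ^ k) • (st k).g with hPdef
      have h2 : ‖F - P‖ ≤ 6 * (H / 2 ^ k) ^ 2 + 2 * (H / 2 ^ k) * ‖G‖ := by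
        have e1 : F - P = ((F + b • G) - P) + (-b) • G := by module
        rw [e1]
        have e2 : ‖(-b) • G‖ ≤ 2 * (H / 2 ^ k) * ‖G‖ := by
          rw [norm_smul, Real.norm_eq_abs, abs_neg, abs_of_nonneg hb0]
          exact mul_le_mul_of_nonneg_right (by linarith) (norm_nonneg _)
        exact le_trans (norm_add_le _ _) (add_le_add hp e2)
      have h3 : ‖F‖ ≤ ‖P‖ + ‖F - P‖ := by
        have := norm_add_le P (F - P)
        rwa [add_sub_cancel] at this
      have h4 : ‖P‖ - P (st k).x ≤ Λ * (H / 2 ^ k) ^ 2 := by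
        have e3 := energy k
        have e4 := nonneg k ((st k).m - H / 2 ^ k)
        linarith
      have h5 := (abs_le.1 (key (F - P) (st k).x (hP.hx k))).1
      rw [sub_apply] at h5
      linarith
    have hh : Tendsto (fun k : ℕ => H / 2 ^ k) atTop (𝓝 0) := by
      have := (tendsto_pow_atTop_nhds_zero_of_lt_one (r := (1 / 2 : ℝ)) (by norm_num)
        (by norm_num)).const_mul H
      rw [mul_zero] at this
      refine this.congr fun k => ?_
      rw [one_div, inv_pow, div_eq_mul_inv]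
    have h2 : Tendsto (fun k : ℕ => F (st k).x + (Λ * (H / 2 ^ k) ^ 2 +
        2 * (6 * (H / 2 ^ k) ^ 2 + 2 * (H / 2 ^ k) * ‖G‖))) atTop
        (𝓝 (F z + (Λ * 0 ^ 2 + 2 * (6 * 0 ^ 2 + 2 * 0 * ‖G‖)))) := by
      refine ((F.continuous.tendsto z).comp hz).add ?_
      refine ((hh.pow 2).const_mul Λ).add ?_
      refine Tendsto.const_mul 2 ?_
      exact ((hh.pow 2).const_mul 6).add ((hh.const_mul 2).mul_const _)
    have h3 := ge_of_tendsto' h2 h1
    simpa using h3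
  have hFmax : ∀ y : X, ‖y‖ ≤ 1 → F y ≤ F z := fun y hy =>
    le_trans (abs_le.1 (key F y hy)).2 hFz
  refine ⟨F, G, z, σ, hz1, hσ1, hG1, hF1, hFmax, ?_⟩
  intro k a b ha hb
  obtain ⟨ha0, hb0, hab, hp, hq⟩ := step k a b ha hb
  have hen := energy k
  have hn1 := nonneg k ((st k).m + H / 2 ^ k)
  have hn2 := nonneg k ((st k).m - H / 2 ^ k)
  have hpk := hpos k
  set h := H / 2 ^ k with hh
  set P := (st k).f + ((st k).m + h) • (st k).g with hPdef
  set Q := (st k).f + ((st k).m - h) • (st k).g with hQdef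
  set S := (st k).f + σ • (st k).g with hSdef
  set x := (st k).x with hx
  have hx1 : ‖x‖ ≤ 1 := hP.hx k
  have c1 : 2 * h * S x = a * P x + b * Q x := by
    simp only [hPdef, hQdef, hSdef, add_apply, smul_apply,
      smul_eq_mul]
    rw [ha, hb]; ring
  have c2 : a * (‖P‖ - P x) + b * (‖Q‖ - Q x) ≤ 2 * h * (Λ * h ^ 2) := by
    have e1 : a * (‖P‖ - P x) ≤ 2 * h * (‖P‖ - P x) :=
      mul_le_mul_of_nonneg_right (by linarith) hn1
    have e2 : b * (‖Q‖ - Q x) ≤ 2 * h * (‖Q‖ - Q x) :=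
      mul_le_mul_of_nonneg_right (by linarith) hn2
    have e3 : 2 * h * ((‖P‖ - P x) + (‖Q‖ - Q x)) ≤ 2 * h * (Λ * h ^ 2) :=
      mul_le_mul_of_nonneg_left hen (by linarith)
    nlinarith
  have c3 : S x - 2 * h ^ 2 ≤ F z := by
    have e1 := (abs_le.1 (key (F - S) x hx1)).1
    rw [sub_apply] at e1
    have e2 := hF1 k
    rw [← hSdef] at e2
    have e3 := hFmax x hx1
    have e4 : ‖F - S‖ ≤ 2 * h ^ 2 := e2
    linarith
  have c4 : a * ‖P‖ + b * ‖Q‖ - 2 * h * F z ≤ 2 * h * ((Λ + 2) * h ^ 2) := by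
    have e1 : 2 * h * (S x - 2 * h ^ 2) ≤ 2 * h * F z :=
      mul_le_mul_of_nonneg_left c3 (by linarith)
    nlinarith
  have d1 : ‖F + b • G‖ ≤ ‖P‖ + 6 * h ^ 2 := by
    have := norm_add_le P ((F + b • G) - P)
    rw [add_sub_cancel] at this
    linarith
  have d2 : ‖F - a • G‖ ≤ ‖Q‖ + 6 * h ^ 2 := by
    have := norm_add_le Q ((F - a • G) - Q)
    rw [add_sub_cancel] at this
    linarith
  have d3 := (abs_le.1 (key (F + b • G) z hz1)).2
  have d4 := (abs_le.1 (key (F - a • G) z hz1)).2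
  simp only [add_apply, sub_apply,
    smul_apply, smul_eq_mul] at d3 d4 ⊢
  have hab2 : a * F z + b * F z = 2 * h * F z := by rw [← hab]; ring
  have hab3 : a * (6 * h ^ 2) + b * (6 * h ^ 2) = 2 * h * (6 * h ^ 2) := by rw [← hab]; ring
  have hh3 : 0 ≤ 2 * h * (4 * h ^ 2) := by positivity
  constructor
  · have e1 : a * (‖F + b • G‖ - (F z + b * G z)) ≤ a * (‖P‖ + 6 * h ^ 2 - (F z + b * G z)) :=
      mul_le_mul_of_nonneg_left (by linarith) ha0
    have e2 : b * (-(a * G z)) ≤ b * (‖Q‖ + 6 * h ^ 2 - F z) :=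
      mul_le_mul_of_nonneg_left (by linarith) hb0
    have e3 : a * (‖P‖ + 6 * h ^ 2 - (F z + b * G z)) + b * (‖Q‖ + 6 * h ^ 2 - F z) - b * (-(a * G z)) =
        (a * ‖P‖ + b * ‖Q‖ - 2 * h * F z) + 2 * h * (6 * h ^ 2) := by
      rw [← hab2, ← hab3]; ring
    have e4 : (Λ + 12) * h ^ 2 * (2 * h) = 2 * h * ((Λ + 2) * h ^ 2) + 2 * h * (6 * h ^ 2) +
        2 * h * (4 * h ^ 2) := by ring
    linarith
  · have e1 : b * (‖F - a • G‖ - (F z - a * G z)) ≤ b * (‖Q‖ + 6 * h ^ 2 - (F z - a * G z)) :=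
      mul_le_mul_of_nonneg_left (by linarith) hb0
    have e2 : a * (b * G z) ≤ a * (‖P‖ + 6 * h ^ 2 - F z) :=
      mul_le_mul_of_nonneg_left (by linarith) ha0
    have e3 : b * (‖Q‖ + 6 * h ^ 2 - (F z - a * G z)) + a * (‖P‖ + 6 * h ^ 2 - F z) - a * (b * G z) =
        (a * ‖P‖ + b * ‖Q‖ - 2 * h * F z) + 2 * h * (6 * h ^ 2) := by
      rw [← hab2, ← hab3]; ring
    have e4 : (Λ + 12) * h ^ 2 * (2 * h) = 2 * h * ((Λ + 2) * h ^ 2) + 2 * h * (6 * h ^ 2) +
        2 * h * (4 * h ^ 2) := by ring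
    linarith

end Pool.Agent.Helper96.Sq
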